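import Pool.Agent.MP_ee8c61_ag.N3.Defs
import Pool.Agent.MP_ee8c61_ag.M3BK.Spec
import Pool.Agent.MP_ee8c61_ag.N3E.Asm

/-!
The polar part of the zeta function over a base: the statements on the threefold.
-/

namespace Pool.Agent.MP_ee8c61_ag.N3.BK

open M3 M3BK M3RESID Set
open Pool.Agent.MP_96693b_ag.RS (Loc LocOf)

noncomputable section

variable [Base]

/-! ### Points of a threefold and the surfaces on it -/

/-- Coordinates at a closed point of a model. -/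
structure Pt3 (M : Mod 3) (f : Po 3) (Q : Loc (KK 3)) (C : Co (KK 3) 3)
    (lab : Fin 3 → Option M.J) : Prop where
  rg : Rg C Q
  ch : ∃ b, LocOf (M.S.A b) Q ∧ ∀ i j, lab i = some j → C.z i = M.η b j
  inj : ∀ i i' j, lab i = some j → lab i' = some j → i = i'
  on : ∀ j, M.On Q j ↔ ∃ i, lab i = some j
  dat : ∀ i j, lab i = some j → C.Dat Q.O (M.v j) i
  fm : Q.ev (ip 3 f / C.mon fun i => (lab i).elim 0 M.aa) ≠ 0
  ad : ∀ la : ℚ, C.Ad Q.O (dvf f la) fun i => (lab i).elim 1 fun j => (M.ex la j : ℂ)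
  pol : ∀ l, ∃ c, M3B1.pd 3 l ∈ C.F Q.O c

/-- The residues of the coordinate functions. -/
def xb {k : Type} [Field k] [Algebra ℂ k] (P : Pl (KK 3) k) : Set k := range fun l => P.π (xx 3 l)

/-- `S` is the divisor `o` of the model `M`. -/
structure IsSf (M : Mod 3) (C : Loc (KK 3) → Co (KK 3) 3) (lab : Loc (KK 3) → Fin 3 → Option M.J)
    (o : M.J) {k : Type} [Field k] [Algebra ℂ k] (P : Pl (KK 3) k) (S : LSf k (xb P) M.J)
    (rs : Loc (KK 3) → Loc k) : Prop where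
  po : P.o = M.v o
  X : S.X = rs '' {Q ∈ M.pts | M.On Q o}
  inj : InjOn rs {Q ∈ M.pts | M.On Q o}
  O : ∀ Q ∈ M.pts, M.On Q o → P.RsO Q.O (rs Q).O
  ev : ∀ Q ∈ M.pts, M.On Q o → ∀ g ∈ Q.O, (rs Q).ev (P.π g) = Q.ev g
  crd : ∀ Q ∈ M.pts, ∀ i, lab Q i = some o → P.RsC (C Q) i (S.C (rs Q)) ∧
    ∀ l, S.lab (rs Q) l = lab Q (i.succAbove l)

/-! ### From the threefold to the surfaces -/

/-- Charts at all points. -/
def Pts (M : Mod 3) (f : Po 3) (C : Loc (KK 3) → Co (KK 3) 3)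
    (lab : Loc (KK 3) → Fin 3 → Option M.J) : Prop := ∀ Q ∈ M.pts, Pt3 M f Q (C Q) (lab Q)

def SPT : Prop := ∀ (f : Po 3) (M : Mod 3), f ≠ 0 → M.OK f → ∃ C lab, Pts M f C lab

def OfPT : Prop := M3E.EOut → SPT

def SSURF : Prop := ∀ (f : Po 3) (M : Mod 3) C lab (o : M.J) (k : Type) [Field k] [Algebra ℂ k]
  (P : Pl (KK 3) k), M.OK f → Pts M f C lab → P.o = M.v o → ∃ S rs, IsSf M C lab o P S rs

def OfSURF : Prop := M3E.EOut → SCON → SSURF

def SAD : Prop := ∀ (f : Po 3) (la : ℚ) (b : Polynomial ℂ) β Q (M : Mod 3) C lab (o : M.J)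
  (k : Type) [Field k] [Algebra ℂ k] (P : Pl (KK 3) k) S rs (e : Dv k) (v : VF k),
  Hyp f la b β Q → M.OK f → Pts M f C lab → IsSf M C lab o P S rs → M.ex la o = 0 →
  P.RsD (dvf f la) e → S.Ad e (fun j => (M.ex la j : ℂ)) ∧
    (P.Res (dvf f la) (bf la β) v → S.Lo e v)

def SSRF : Prop := ∀ (f : Po 3) (la : ℚ) (b : Polynomial ℂ) β Q (M : Mod 3) (o : M.J)
  (k : Type) [Field k] [Algebra ℂ k] (P : Pl (KK 3) k) (e : Dv k) (v : VF k),
  Hyp f la b β Q → M.OK f → P.o = M.v o → M.ex la o = 0 → P.RsD (dvf f la) e →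
  P.Res (dvf f la) (bf la β) v → ∃ C, M3F.Srf C e v (b.eval (-(la : ℂ)))

def OfSRF : Prop := M3E.EOut → SPT → SSRF

def SCHT : Prop := ∀ (χ : H36.Chi) (f : Po 3) (M : Mod 3) C lab (o : M.J) (k : Type) [Field k]
  [Algebra ℂ k] (P : Pl (KK 3) k) S rs (I : Finset M.J), IsEu χ → M.OK f → Pts M f C lab →
  IsSf M C lab o P S rs → o ∈ I →
  chiP χ (M.str I) = chiP χ {x ∈ S.X | ∀ j, (∃ i, S.lab x i = some j) ↔ j ∈ I.erase o}

def OfCHT : Prop := M3E.EOut → SCON → SCHI → SCHT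

def SUP : Prop := ∀ (f : Po 3) (la : ℚ) (b : Polynomial ℂ) β Q (M : Mod 3) C lab (o : M.J)
  (k : Type) [Field k] [Algebra ℂ k] (P : Pl (KK 3) k) S rs (e : Dv k),
  Hyp f la b β Q → M.OK f → Pts M f C lab → IsSf M C lab o P S rs → M.ex la o = 0 →
  P.RsD (dvf f la) e → S.Up e M.aa

def OfUP : Prop := M3E.EOut → SPT → SSURF → SAD → SUP

open Classical in
/-- The order of `f` along the divisors through `Q` other than `o` and `o'`. -/
def thd (M : Mod 3) (o o' : M.J) (Q : Loc (KK 3)) : ℂ :=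
  ∑ j with j ≠ o ∧ j ≠ o' ∧ M.On Q j, (M.a j : ℂ)

def SCROSS : Prop := ∀ (χ : H36.Chi) (f : Po 3) (la : ℚ) (b : Polynomial ℂ) β Q (M : Mod 3) C lab
  (o o' : M.J) (k k' : Type) [Field k] [Algebra ℂ k] [Field k'] [Algebra ℂ k']
  (P : Pl (KK 3) k) (P' : Pl (KK 3) k') S rs S' rs' (e : Dv k) (v : VF k) (e' : Dv k')
  (v' : VF k') ψ ρ ψ' ρ', Hyp f la b β Q → M.OK f → Pts M f C lab → o ≠ o' →
  IsSf M C lab o P S rs → IsSf M C lab o' P' S' rs' → M.ex la o = 0 → M.ex la o' = 0 →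
  P.RsD (dvf f la) e → P.Res (dvf f la) (bf la β) v →
  P'.RsD (dvf f la) e' → P'.Res (dvf f la) (bf la β) v' →
  Out χ e v (b.eval (-(la : ℂ))) S (fun j => (M.ex la j : ℂ)) ψ ρ →
  Out χ e' v' (b.eval (-(la : ℂ))) S' (fun j => (M.ex la j : ℂ)) ψ' ρ' →
  ∑ᶠ x ∈ {x ∈ M.pts | M.On x o ∧ M.On x o'},
    (M.a o' * ρ (rs x) + M.a o * ρ' (rs' x) - thd M o o' x) *
      w1 (S.ea (fun j => (M.ex la j : ℂ)) (rs x)) ^ 2 = 0

def OfCROSS : Prop := M3E.EOut → SFL → SP1 → STH → SSUM → SPL → SAD → SCROSS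

def OfBOOK : Prop := M3E.EOut → SCON → SCHI → SINTA → SINTB → SPOL → SPT → SSURF → SAD → SSRF →
  SCHT → SUP → SBKL → SCROSS → SBOOK

end

end Pool.Agent.MP_ee8c61_ag.N3.BK
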