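import Pool.Agent.MP_ee8c61_ag.M3BK.RBookL
import Pool.Agent.MP_ee8c61_ag.N3BK.Spec

/-! The pole cancels. -/

namespace Pool.Agent.MP_ee8c61_ag.N3.BK

open M3 M3BK

set_option linter.unusedSectionVars false

variable [Base]

open M3 M3RESID Set Function
open Pool.Agent.MP_96693b_ag.RS (Loc LocOf)

/-- The divisors through a point. -/
noncomputable def ons (M : Mod 3) (Q : Loc (KK 3)) : Finset M.J :=
  (toFinite {j | M.On Q j}).toFinset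

/-- The points on two divisors. -/
def Pq (M : Mod 3) (o o' : M.J) : Set (Loc (KK 3)) := {x ∈ M.pts | M.On x o ∧ M.On x o'}

theorem Pq_comm (M : Mod 3) (o o' : M.J) : Pq M o o' = Pq M o' o := by
  simp only [Pq, and_comm]

theorem fin_sub {α : Type} {s : Set α} {A B T D : α → ℂ} (hA : (s ∩ support A).Finite)
    (hB : (s ∩ support B).Finite) (hT : (s ∩ support T).Finite) (r r' : ℂ)
    (h : ∑ᶠ x ∈ s, D x = 0) (hD : ∀ x ∈ s, r * A x + r' * B x = D x + T x) :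
    r * ∑ᶠ x ∈ s, A x + r' * ∑ᶠ x ∈ s, B x = ∑ᶠ x ∈ s, T x := by
  have f : (s ∩ support D).Finite := ((hA.union hB).union hT).subset fun x hx => by
    by_contra hn
    simp only [mem_union, mem_inter_iff, hx.1, true_and, mem_support, not_or, not_not] at hn
    exact hx.2 (by simpa [hn.1.1, hn.1.2, hn.2, eq_comm] using hD x hx.1)
  rw [mul_finsum_mem, mul_finsum_mem,
    ← finsum_mem_add_distrib' (hA.subset fun x hx => ⟨hx.1, right_ne_zero_of_mul hx.2⟩)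
      (hB.subset fun x hx => ⟨hx.1, right_ne_zero_of_mul hx.2⟩), finsum_mem_congr rfl hD,
    finsum_mem_add_distrib' f hT, h, zero_add]

namespace IsSf

variable {χ : H36.Chi} {f : Po 3} {M : Mod 3} {C : Loc (KK 3) → Co (KK 3) 3}
  {lab : Loc (KK 3) → Fin 3 → Option M.J} {o o' : M.J} {k : Type} [Field k] [Algebra ℂ k]
  {P : Pl (KK 3) k} {S : LSf k (xb P) M.J} {rs : Loc (KK 3) → Loc k}
  (hS : IsSf M C lab o P S rs) (hP : Pts M f C lab)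

include hS

theorem bk_mem {Q : Loc (KK 3)} (hQ : Q ∈ M.pts) (ho : M.On Q o) : rs Q ∈ S.X :=
  hS.X ▸ mem_image_of_mem rs ⟨hQ, ho⟩

include hP

theorem bk_lab_iff {Q : Loc (KK 3)} (hQ : Q ∈ M.pts) (ho : M.On Q o) (j : M.J) :
    (∃ l, S.lab (rs Q) l = some j) ↔ M.On Q j ∧ j ≠ o := by
  obtain ⟨i, hi⟩ := ((hP Q hQ).on o).1 ho
  simp only [(hS.crd Q hQ i hi).2, (hP Q hQ).on]
  refine ⟨fun ⟨l, hl⟩ => ⟨⟨_, hl⟩, ?_⟩, fun ⟨⟨i', hi'⟩, h2⟩ => ?_⟩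
  · rintro rfl
    exact Fin.succAbove_ne i l ((hP Q hQ).inj _ _ _ hl hi)
  · obtain ⟨l, rfl⟩ := Fin.exists_succAbove_eq (x := i') (y := i)
      fun h => h2 (Option.some.inj (hi'.symm.trans (h ▸ hi)))
    exact ⟨l, hi'⟩

theorem bk_no {x : Loc k} (hx : x ∈ S.X) (i : Fin 2) : S.lab x i ≠ some o := fun h => by
  obtain ⟨Q, hQ, rfl⟩ := hS.X ▸ hx
  exact ((hS.bk_lab_iff hP hQ.1 hQ.2 o).1 ⟨i, h⟩).2 rfl

theorem bk_lb_eq {Q : Loc (KK 3)} (hQ : Q ∈ M.pts) (ho : M.On Q o) : S.lb o (rs Q) = ons M Q := by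
  ext j
  rw [S.mem_lb, hS.bk_lab_iff hP hQ ho, ons, Finite.mem_toFinset]
  exact ⟨fun h => h.elim (fun h => h ▸ ho) (·.1), fun h => (em _).imp_right fun h' => ⟨h, h'⟩⟩

theorem bk_bij (hn : o ≠ o') : BijOn rs (Pq M o o') (S.Lb o') := by
  refine ⟨fun Q hQ => ⟨hS.bk_mem hQ.1 hQ.2.1, (hS.bk_lab_iff hP hQ.1 hQ.2.1 o').2 ⟨hQ.2.2, hn.symm⟩⟩,
    fun Q hQ Q' hQ' => hS.inj ⟨hQ.1, hQ.2.1⟩ ⟨hQ'.1, hQ'.2.1⟩, fun x hx => ?_⟩
  obtain ⟨Q, hQ, rfl⟩ := hS.X ▸ hx.1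
  exact ⟨Q, ⟨hQ.1, hQ.2, ((hS.bk_lab_iff hP hQ.1 hQ.2 o').1 hx.2).1⟩, rfl⟩

theorem bk_pull (hn : o ≠ o') {g : Loc k → ℂ} {g' : Loc (KK 3) → ℂ}
    (hg : (S.Lb o' ∩ support g).Finite) (h : ∀ Q ∈ Pq M o o', g' Q = g (rs Q)) :
    (Pq M o o' ∩ support g').Finite ∧ ∑ᶠ Q ∈ Pq M o o', g' Q = ∑ᶠ x ∈ S.Lb o', g x :=
  ⟨Finite.of_injOn (f := rs) (t := S.Lb o' ∩ support g)
    (fun Q hQ => ⟨(hS.bk_bij hP hn).mapsTo hQ.1, (h Q hQ.1).symm.trans_ne hQ.2⟩)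
    ((hS.bk_bij hP hn).injOn.mono inter_subset_left) hg, finsum_mem_eq_of_bijOn _ (hS.bk_bij hP hn) h⟩

theorem bk_w1_eq {a : M.J → ℂ} (ha : a o = 0) {Q : Loc (KK 3)} (hQ : Q ∈ Pq M o o') :
    w1 (S.ea a (rs Q)) = WW a (ons M Q) := by
  rw [S.w1_W ha (hS.bk_mem hQ.1 hQ.2.1), hS.bk_lb_eq hP hQ.1 hQ.2.1]

theorem bk_rho {d : Dv k} {v : VF k} {b : ℂ} {a : M.J → ℂ} {ψ : k} {ρ : Loc k → ℂ}
    (hO : Out χ d v b S a ψ ρ) (hn : o ≠ o') (ha : a o = 0) (ha' : a o' = 0) :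
    (Pq M o o' ∩ support fun Q => ρ (rs Q) * WW a (ons M Q) ^ 2).Finite ∧
      ∑ᶠ Q ∈ Pq M o o', ρ (rs Q) * WW a (ons M Q) ^ 2 =
        ∑ᶠ x ∈ S.Lb o', ρ x * w1 (S.ea a x) ^ 2 :=
  hS.bk_pull hP hn (hO.fin.subset fun x ⟨⟨hx, i, hi⟩, h⟩ =>
    ⟨⟨hx, i, by simpa [LSf.ea, hi] using ha'⟩, left_ne_zero_of_mul h⟩)
    fun Q hQ => by rw [hS.bk_w1_eq hP ha hQ]

theorem bk_thd {a : M.J → ℂ} {c : Finset M.J → ℤ} (h : S.St χ o c)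
    (h2 : ∀ x ∈ S.X, S.ea a x 0 ≠ 0 ∨ S.ea a x 1 ≠ 0) (hn : o ≠ o') (ha : a o = 0)
    (ha' : a o' = 0) : (Pq M o o' ∩ support fun Q => thd M o o' Q * WW a (ons M Q) ^ 2).Finite ∧
      ∑ᶠ Q ∈ Pq M o o', thd M o o' Q * WW a (ons M Q) ^ 2 =
        ∑ I with o ∈ I ∧ o' ∈ I, c I * (WW a I * SS a M.a I) := by
  obtain ⟨h3, h4⟩ := h.third M.a hn ha ha'
  rw [h4]
  refine hS.bk_pull hP hn h3 fun Q hQ => ?_
  have hx := (hS.bk_bij hP hn).mapsTo hQ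
  rw [ws_eq a M.a hn (S.mem_lb.2 (Or.inl rfl)) (S.mem_lb.2 (Or.inr hx.2)) ha ha' (S.card_lb _)
    (S.card_zero (h2 _ hx.1)), hS.bk_lb_eq hP hQ.1 hQ.2.1, BK.thd]
  congr 2
  ext j
  simp [ons, and_comm, and_assoc]

end IsSf

theorem rBook : OfBOOK := by
  intro _ _ _ hA hB hPol hPt hSf hAd hSrf hCht hUp hBkl hCr f la b β Q M χ H hM hχ hst
  obtain ⟨C, lab, hP⟩ := hPt f M H.ne hM
  have hD : ∀ o, (M.ex la o : ℂ) = 0 → ∃ e v S rs ψ ρ, M.ex la o = 0 ∧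
      IsSf M C lab o (M.v o).pl S rs ∧ (M.v o).pl.RsD (dvf f la) e ∧
      (M.v o).pl.Res (dvf f la) (bf la β) v ∧
      Out χ e v (b.eval (-(la : ℂ))) S (fun j => (M.ex la j : ℂ)) ψ ρ := fun o ho => by
    have ho : M.ex la o = 0 := by exact_mod_cast ho
    obtain ⟨e, v, h1, h2, h3⟩ := hst o ho
    obtain ⟨S, rs, hS⟩ := hSf f M C lab o _ (M.v o).pl hM hP rfl
    obtain ⟨h4, h5⟩ := hAd f la b β Q M C lab o _ _ S rs e v H hM hP hS ho h1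
    obtain ⟨C₀, h6⟩ := hSrf f la b β Q M o _ (M.v o).pl e v H hM rfl ho h1 h2
    obtain ⟨ψ, ρ, h7⟩ := hBkl χ _ C₀ e v _ _ M.J S _ M.aa hχ h6 (finite_range _) h3 h4 (h5 h2)
      (fun j => Int.natCast_pos.2 (hM.pos j)) (hUp f la b β Q M C lab o _ _ S rs e H hM hP hS ho h1)
    exact ⟨e, v, S, rs, ψ, ρ, ho, hS, h1, h2, h7⟩
  choose e v S rs ψ ρ h0 hS h1 h2 hO using hD
  have hT : ∀ o ho, (S o ho).St χ o fun I => chiP χ (M.str I) := fun o ho =>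
    ⟨hA χ _ hχ, hB χ _ ℂ hχ, fun x hx => (hS o ho).bk_no hP hx,
      fun I hI => hCht χ f M C lab o _ _ _ _ I hχ hM hP (hS o ho) hI⟩
  have t2 : ∀ I, chiP χ (M.str I) ≠ 0 →
      (I.filter fun j => (M.ex la j : ℂ) = 0).card ≤ 2 := fun I hI => by
    rcases (I.filter fun j => (M.ex la j : ℂ) = 0).eq_empty_or_nonempty with h | ⟨o, h⟩
    · rw [h]
      exact Nat.zero_le _
    · exact (hT o (Finset.mem_filter.1 h).2).two (hO o _).two (Finset.mem_filter.1 h).1 hI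
  refine hPol M.J M.a M.k la (fun I => chiP χ (M.str I)) (fun j => (M.ex la j : ℂ)) hM.pos
    (fun j => by simp [Mod.ex]) t2 (comb2 _ _ _ t2 fun o o' hn ho ho' => ?_)
    (comb _ _ _ hM.pos t2 (fun o o' => if ho : (M.ex la o : ℂ) = 0 then
      ∑ᶠ x ∈ Pq M o o', ρ o ho (rs o ho x) * WW (fun j => (M.ex la j : ℂ)) (ons M x) ^ 2 else 0)
      (fun o ho => ?_) fun o o' hn ho ho' => ?_)
  · rw [((hT o ho).pair hn _).2, ← (hO o ho).rg o' ho']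
    exact (hT o ho).B.congr _ _ _ fun x hx => ((S o ho).w1_W ho hx.1).symm
  · rw [(hT o ho).off ho, (hO o ho).off, (hT o ho).sum_Z (hO o ho).two ((hO o ho).fin.subset
      fun x hx => ⟨hx.1, left_ne_zero_of_mul hx.2⟩)]
    refine Finset.sum_congr rfl fun o' h => ?_
    rw [Finset.mem_filter] at h
    rw [dif_pos ho, ((hS o ho).bk_rho hP (hO o ho) h.2.1.symm ho h.2.2).2]
  have h3 := hCr χ f la b β Q M C lab o o' _ _ _ _ _ _ _ _ _ _ _ _ _ _ _ _ H hM hP hn (hS o ho)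
    (hS o' ho') (h0 o ho) (h0 o' ho') (h1 o ho) (h2 o ho) (h1 o' ho') (h2 o' ho') (hO o ho)
    (hO o' ho')
  obtain ⟨f1, -⟩ := (hS o ho).bk_rho hP (hO o ho) hn ho ho'
  obtain ⟨f2, -⟩ := (hS o' ho').bk_rho hP (hO o' ho') hn.symm ho' ho
  obtain ⟨f3, e3⟩ := (hS o ho).bk_thd hP (hT o ho) (hO o ho).two hn ho ho'
  rw [Pq_comm] at f2
  rw [dif_pos ho, dif_pos ho', ← e3, Pq_comm M o']
  refine fin_sub f1 f2 f3 _ _ h3 fun x hx => ?_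
  rw [(hS o ho).bk_w1_eq hP ho hx]
  ring

end Pool.Agent.MP_ee8c61_ag.N3.BK
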