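import Pool.Agent.MP_ee8c61_ag.N3BK.Spec
import Pool.Agent.MP_ee8c61_ag.M3BK.Tr

/-! The strata of a divisor can be measured on the surface. -/

namespace Pool.Agent.MP_ee8c61_ag.N3.BK

open M3 M3BK

set_option linter.unusedSectionVars false

variable [Base]

open M3 M3RESID Set
open Pool.Agent.MP_96693b_ag.RS (Loc LocOf)
open Pool.Agent.MP_96693b_ag

noncomputable section

namespace Cht

variable {N : ℕ} {f : Po N} {M : Mod N}

theorem chart_fg (h : M.OK f) (b : M.ι) : (M.S.A b).FG := by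
  have h1 : (M.S.zh b).toRingHom.FiniteType :=
    .of_finitePresentation (RingHom.Etale.iff_flat_and_formallyUnramified.1 (h.et b)).2.2
  have h2 : (algebraMap ℂ (MvPolynomial (Fin N) ℂ)).FiniteType :=
    RingHom.finiteType_algebraMap.2 inferInstance
  have h3 := h1.comp h2
  have e : (M.S.zh b).toRingHom.comp (algebraMap ℂ (MvPolynomial (Fin N) ℂ)) =
      algebraMap ℂ (M.S.A b) := (M.S.zh b).comp_algebraMap
  rw [e] at h3
  exact (Subalgebra.fg_iff_finiteType _).2 (RingHom.finiteType_algebraMap.1 h3)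

/-- A point of a chart lies on a divisor when the equation of the divisor vanishes. -/
theorem on_iff (h : M.OK f) (B : M3E.Bas1 M) {b : M.ι} {Q : Loc (KK N)}
    (hQ : LocOf (M.S.A b) Q) (j : M.J) : M.On Q j ↔ Q.ev (M.η b j) = 0 := by
  have hη : M.η b j ∈ Q.O := hQ.le (B.η_mem b j)
  have h0 : M.η b j ≠ 0 := (M.S.η b j).ne_zero
  constructor
  · intro ho
    by_contra hne
    exact (B.thru_v j j).2 rfl b (fun g hg => ho g (hQ.le hg))
      ⟨h0, ho _ hη, ho _ (Q.inv_mem _ hη hne)⟩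
  · intro he g hg
    have h1 : (M.η b j)⁻¹ ∉ M.S.A b := fun hi => by
      have := Q.ev_mul _ hη _ (hQ.le hi)
      rw [mul_inv_cancel₀ h0, RS.Loc.ev_one, he, zero_mul] at this
      exact one_ne_zero this
    obtain ⟨h2, -, h3⟩ := h.dv b j h1
    obtain ⟨p, hp, q, hq, hq0, e⟩ := hQ.frac g hg
    have q0 := RS.Loc.ne_zero_of_ev hq0
    have hv : (M.v j).v q = 0 := by
      by_contra hv
      have h4 : q ∈ (M.v j).F 1 := Or.inr (by
        have : 0 ≤ (M.v j).v q := (h2 q hq).resolve_left q0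
        omega)
      have h5 := Q.ev_mul _ (hQ.le (h3 q hq h4)) _ hη
      rw [inv_mul_cancel_right₀ h0, he, mul_zero] at h5
      exact hq0 h5
    rw [eq_div_of_mul_eq q0 e]
    simpa [hv] using F_div (show p ∈ (M.v j).F 0 from h2 p hp) q

section Gen

variable {L : Type} [Field L] [Algebra ℂ L]

theorem conP_biUnion {ι : Type} (s : Finset ι) (W : ι → Set (Loc L)) (h : ∀ i ∈ s, ConP (W i)) :
    ConP (⋃ i ∈ s, W i) := by
  classical
  induction s using Finset.induction_on with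
  | empty => simpa using conP_empty
  | insert a s _ ih =>
    rw [Finset.set_biUnion_insert]
    exact (h a (Finset.mem_insert_self a s)).union
      (ih fun i hi => h i (Finset.mem_insert_of_mem hi))

theorem conP_iUnion {ι : Type} [Fintype ι] (W : ι → Set (Loc L)) (h : ∀ i, ConP (W i)) :
    ConP (⋃ i, W i) := by
  simpa using conP_biUnion Finset.univ W fun i _ => h i

theorem conP_forall (c : ConOK L) {ι : Type} (s : Finset ι) {W : Set (Loc L)} (hW : ConP W)
    (p : ι → Loc L → Prop) (h : ∀ i ∈ s, ConP {x ∈ W | p i x}) :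
    ConP {x ∈ W | ∀ i ∈ s, p i x} := by
  classical
  induction s using Finset.induction_on with
  | empty => simpa using hW
  | insert a s _ ih =>
    have e : {x ∈ W | ∀ i ∈ insert a s, p i x} = {x ∈ W | p a x} ∩ {x ∈ W | ∀ i ∈ s, p i x} := by
      ext x
      simp only [Finset.forall_mem_insert, mem_ofPred_eq, mem_inter_iff]
      tauto
    rw [e]
    exact c.inter _ _ (h a (Finset.mem_insert_self a s))
      (ih fun i hi => h i (Finset.mem_insert_of_mem hi))

/-- The points of a finitely generated ring. -/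
theorem conP_locOf {B : Subalgebra ℂ L} (hB : B.FG) : ConP {x : Loc L | LocOf B x} := by
  obtain ⟨s, rfl⟩ := hB
  have := ConP.pc (L := L) s (fun i => (i : L)) _ (H36.Con.zero 0)
  simpa [Af] using this

/-- The zeros of a regular function. -/
theorem conP_zero (c : ConOK L) {W : Set (Loc L)} (hW : ConP W) {g : L} (hg : ∀ x ∈ W, g ∈ x.O) :
    ConP {x ∈ W | x.ev g = 0} := by
  have := c.pre W Unit (fun _ => g) _ hW (fun x hx _ => hg x hx)
    (H36.Con.zero (MvPolynomial.X ()))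
  have e : {x ∈ W | x.ev g = 0} = W ∩ vl (fun _ : Unit => g) ⁻¹'
      {x | MvPolynomial.eval x (MvPolynomial.X ()) = 0} := by
    ext x
    simp [vl]
  exact e ▸ this

end Gen

theorem conP_pts (h : M.OK f) : ConP M.pts := by
  have := conP_iUnion _ fun b => conP_locOf (chart_fg h b)
  rwa [← ofPred_exists] at this

theorem conP_on (c : ConOK (KK N)) (h : M.OK f) (B : M3E.Bas1 M) (j : M.J) :
    ConP {Q ∈ M.pts | M.On Q j} := by
  have := conP_iUnion _ fun b => conP_zero c (conP_locOf (chart_fg h b)) (g := M.η b j)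
    fun _ hx => hx.le (B.η_mem b j)
  have e : {Q ∈ M.pts | M.On Q j} =
      ⋃ b, {x ∈ {x : Loc (KK N) | LocOf (M.S.A b) x} | x.ev (M.η b j) = 0} := by
    ext Q
    simp only [mem_ofPred_eq, mem_iUnion]
    exact ⟨fun ⟨⟨b, hb⟩, ho⟩ => ⟨b, hb, (on_iff h B hb j).1 ho⟩,
      fun ⟨b, hb, ho⟩ => ⟨⟨b, hb⟩, (on_iff h B hb j).2 ho⟩⟩
  exact e ▸ this

theorem conP_str (c : ConOK (KK N)) (h : M.OK f) (B : M3E.Bas1 M) (I : Finset M.J) :
    ConP (M.str I) := by
  have := conP_forall c Finset.univ (conP_pts h) (fun j Q => M.On Q j ↔ j ∈ I) fun j _ => by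
    by_cases hj : j ∈ I
    · simpa [hj] using conP_on c h B j
    · have h1 := c.diff _ _ (conP_pts h) (conP_on c h B j)
      have e : {Q ∈ M.pts | M.On Q j ↔ j ∈ I} = M.pts \ {Q ∈ M.pts | M.On Q j} := by
        ext Q
        simp only [hj, iff_false, mem_ofPred_eq, mem_sdiff]
        tauto
      exact e ▸ h1
  simpa [Mod.str] using this

end Cht

open Cht

theorem rCht : OfCHT := by
  intro E hc hx χ f M C lab o k _ _ P S rs I hχ hM hP hS ho
  have B : M3E.Bas1 M := (E.bas 3 f M hM).toBas1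
  have hon : ∀ Q ∈ M.str I, M.On Q o := fun Q hQ => (hQ.2 o).2 ho
  have hI : ∀ Q ∈ M.pts, M.On Q o → Pr P Q (rs Q) := fun Q hQ h =>
    ⟨fun g hg => hS.po ▸ h g hg, hS.O Q hQ h⟩
  have hl : ∀ Q ∈ M.pts, M.On Q o → ∀ j,
      (∃ i, S.lab (rs Q) i = some j) ↔ j ≠ o ∧ M.On Q j := fun Q hQ h j => by
    obtain ⟨i₀, h0⟩ := ((hP Q hQ).on o).1 h
    have h1 := (hS.crd Q hQ i₀ h0).2
    rw [(hP Q hQ).on j]
    constructor
    · rintro ⟨i, hi⟩
      rw [h1] at hi
      refine ⟨?_, _, hi⟩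
      rintro rfl
      exact Fin.succAbove_ne i₀ i ((hP Q hQ).inj _ _ _ hi h0)
    · rintro ⟨hj, i, hi⟩
      have h2 : i ≠ i₀ := by
        rintro rfl
        exact hj (Option.some.inj (hi.symm.trans h0))
      obtain ⟨l, rfl⟩ := Fin.exists_succAbove_eq h2
      exact ⟨l, (h1 l).trans hi⟩
  have key := transfer (P := P) (hc _) (hx χ _ hχ.1) (hx χ k hχ.1) (conP_str (hc _) hM B I)
    (fun Q hQ => (hI Q hQ.1 (hon Q hQ)).1) fun Q hQ Q' hQ' x h h' =>
      hS.inj ⟨hQ.1, hon Q hQ⟩ ⟨hQ'.1, hon Q' hQ'⟩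
        (((hI Q hQ.1 (hon Q hQ)).uniq h).trans (h'.uniq (hI Q' hQ'.1 (hon Q' hQ'))))
  rw [← key.2]
  congr 1
  ext x
  constructor
  · rintro ⟨Q, hQ, h⟩
    obtain rfl := (hI Q hQ.1 (hon Q hQ)).uniq h
    refine ⟨hS.X ▸ ⟨Q, ⟨hQ.1, hon Q hQ⟩, rfl⟩, fun j => ?_⟩
    rw [hl Q hQ.1 (hon Q hQ), hQ.2 j, Finset.mem_erase]
  · rintro ⟨h1, h2⟩
    rw [hS.X] at h1
    obtain ⟨Q, ⟨hQ, h⟩, rfl⟩ := h1
    refine ⟨Q, ⟨hQ, fun j => ?_⟩, hI Q hQ h⟩
    by_cases hj : j = o
    · exact hj ▸ iff_of_true h ho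
    · have := h2 j
      rw [hl Q hQ h, Finset.mem_erase] at this
      exact ⟨fun a => (this.1 ⟨hj, a⟩).2, fun a => (this.2 ⟨hj, a⟩).2⟩

end

end Pool.Agent.MP_ee8c61_ag.N3.BK
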