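import Pool.Agent.MP_ee8c61_ag.N3BK.XDefs
import Pool.Agent.MP_ee8c61_ag.M3BK.XTp
import Pool.Agent.MP_ee8c61_ag.N3RESID.Eqn

/-! The derivative of the functional equation at the generic point of a double curve. -/

namespace Pool.Agent.MP_ee8c61_ag.N3.BK

open Pool.Agent.MP_ee8c61_ag.M3 Pool.Agent.MP_ee8c61_ag.M3RESID Pool.Agent.MP_ee8c61_ag.M3BK Set
open Pool.Agent.MP_96693b_ag.RS (Loc LocOf)

set_option linter.unusedSectionVars false

variable [Base]

theorem rTp : STP := by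
  intro f la b β q M Q C lab i i' o o' A h hM P hi hi' ho ho' hA hu
  have hS : C.St A := P.rg.st.lz hA
  obtain ⟨c₀, hc₀, -⟩ := P.ch
  have hpol : ∀ g ∈ (ip 3).range, g ∈ Q.O := by
    rintro _ ⟨p, rfl⟩
    exact hc₀.le (hM.pol c₀ p)
  have hF : ip 3 f ≠ 0 := fun e => h.ne (Subtype.ext e)
  obtain ⟨e, he⟩ : ∃ e : Fin 3 → ℤ, e = fun l => (lab l).elim 0 M.aa := ⟨_, rfl⟩
  obtain ⟨U, hU⟩ : ∃ U, U = ip 3 f / C.mon e := ⟨_, rfl⟩
  have u0 : Q.ev U ≠ 0 := by rw [hU, he]; exact P.fm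
  have u1 : U ∈ Q.O := by_contra fun k => u0 (Q.ev_out U k)
  have u2 := Q.inv_mem U u1 u0
  have u3 : U ≠ 0 := hU ▸ div_ne_zero hF (C.mon_ne e)
  have ef : ip 3 f = U * C.mon e := by rw [hU, div_mul_cancel₀ _ (C.mon_ne e)]
  have off : ∀ l ∉ ({i, i'} : Finset (Fin 3)), (C.z l)⁻¹ ∈ A := fun l hl =>
    hu l (fun k => hl (by simp [k])) fun k => hl (by simp [k])
  have ha : ∀ l ∈ ({i, i'} : Finset (Fin 3)), (dvf f la).δ (C.th l) / C.z l ∈ A := fun l hl => by
    have := hA.le (P.ad la l)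
    rcases Finset.mem_insert.1 hl with rfl | hl
    · simpa [hi, ho] using this
    · obtain rfl := Finset.mem_singleton.1 hl
      simpa [hi', ho'] using this
  have hf : ∀ l, (if l ∈ ({i, i'} : Finset (Fin 3)) then C.z l else 1) * C.D l (ip 3 f) /
      ip 3 f ∈ A := fun l => by
    have := Co.D_dlog hS (hA.le u1) (hA.le u2) u3 ef (s := Finset.univ) (by simp) l
    rw [if_pos (Finset.mem_univ l)] at this
    split_ifs with hl
    · exact this
    · refine mem_of_eq (mul_mem (off l hl) this) ?_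
      rw [mul_div_assoc, mul_div_assoc, inv_mul_cancel_left₀ (C.ne l), one_mul]
  obtain ⟨u, p0, p1⟩ := BSd.poles h.bs la
  obtain ⟨c, hc⟩ := XTp.lat P.rg.st.z P.pol u2 u3 ef u
  have key : ∀ v : VF (KK 3), (∀ l, ip 3 f ^ u * v (M3.xx 3 l) ∈ (ip 3).range) →
      v ∈ C.G A {i, i'} fun l => if l ∈ ({i, i'} : Finset (Fin 3)) then c l else 0 := fun v hv =>
    Co.G_unit hS.z (fun l => (em (l ∈ ({i, i'} : Finset (Fin 3)))).imp
      (fun hl => ⟨(if_pos hl).symm, iff_of_true (Finset.mem_univ l) hl⟩) (off l))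
      (Co.G_mono hA.le _ _ (hc v fun l => hpol _ (hv l)))
  have fA : ip 3 f ∈ A := hA.le (hpol _ ⟨f, rfl⟩)
  have q0 := hA.le (hpol _ (BSd.Q0 h.bs la))
  have q1 := hA.le (hpol _ (BSd.Q1 h.bs la))
  obtain ⟨w, hw, h1, X, hX, h2⟩ := Co.redT hS ha hF hf (fun l hl => by rw [if_neg hl])
    (key _ p0) (key _ p1)
    (by rw [bf_δ h.bs]; exact sub_mem (A.algebraMap_mem _) (mul_mem fA q0))
    (by rw [bf1_δ h.bs]; exact sub_mem (A.algebraMap_mem _) (mul_mem fA q1))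
  have fz : ip 3 f / C.z i ∈ A := by
    have k : C.mon (e - Pi.single i 1) ∈ A := C.mon_mem hS.z fun l => by
      rw [Pi.zero_apply, Pi.sub_apply, he]
      by_cases hl : l = i
      · subst hl
        have := hM.pos o
        simp only [hi, Option.elim, Mod.aa, Pi.single_eq_same]
        omega
      · rw [Pi.single_eq_of_ne hl, sub_zero]
        change (0 : ℤ) ≤ (lab l).elim 0 M.aa
        rcases lab l with _ | j
        · exact le_rfl
        · exact Int.natCast_nonneg _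
    refine mem_of_eq (mul_mem (hA.le u1) k) ?_
    have k' := C.mon_add (e - Pi.single i 1) (Pi.single i 1)
    rw [sub_add_cancel, C.mon_single, zpow_one] at k'
    rw [ef, k', ← mul_assoc, mul_div_cancel_right₀ _ (C.ne i)]
  obtain ⟨r, hr⟩ : ∃ r : ℂ, r = b.derivative.eval (-(la : ℂ)) / b.eval (-(la : ℂ)) := ⟨_, rfl⟩
  refine ⟨_, h1, algebraMap ℂ (KK 3) r • (bf la β - w) - X,
    sub_mem (Co.smul_G0 (A.algebraMap_mem r) h1) hX, by rwa [sub_sub_cancel], ?_⟩
  refine mem_of_eq (mul_mem fz (sub_mem (mul_mem (A.algebraMap_mem r) q0) q1)) ?_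
  have e1 : algebraMap ℂ (KK 3) r * algebraMap ℂ (KK 3) (b.eval (-(la : ℂ))) =
      algebraMap ℂ (KK 3) (b.derivative.eval (-(la : ℂ))) := by
    rw [← map_mul, hr, div_mul_cancel₀ _ h.nr]
  rw [bf1_δ h.bs] at h2
  rw [map_sub, Dv.δ_cst, map_sub, Dv.δ_Ex _ hw, sub_zero, bf_δ h.bs, div_mul_eq_mul_div]
  congr 1
  linear_combination h2 - e1

end Pool.Agent.MP_ee8c61_ag.N3.BK
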