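import Pool.Agent.MP_ee8c61_ag.N3BK.XCrv
import Pool.Agent.MP_ee8c61_ag.M3BK.XGdl
import Pool.Agent.MP_ee8c61_ag.N3BK.XTp

/-! The cross term vanishes. -/

namespace Pool.Agent.MP_ee8c61_ag.N3.BK

open Pool.Agent.MP_ee8c61_ag.M3 Pool.Agent.MP_ee8c61_ag.M3RESID Pool.Agent.MP_ee8c61_ag.M3BK Set
open Pool.Agent.MP_96693b_ag.RS (Loc LocOf)

set_option linter.unusedSectionVars false

variable [Base]

theorem rCross : OfCROSS := cross_of rGdl rTp

end Pool.Agent.MP_ee8c61_ag.N3.BK
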