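import Pool.Agent.MP_ee8c61_ag.N3BK.RSurfA

/-! Row SURF: a divisor of a model is a surface with labelled boundary. -/

namespace Pool.Agent.MP_ee8c61_ag.N3.BK

open M3 M3BK

set_option linter.unusedSectionVars false

variable [Base]

open M3 M3RESID Set
open Pool.Agent.MP_96693b_ag.RS (Loc LocOf)
open Pool.Agent.MP_96693b_ag

namespace RSurf

variable {f : Po 3} {M : N3.Mod 3} {k : Type} [Field k] [Algebra ℂ k] {P : Pl (KK 3) k}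
  {o : M.J} {Q : Loc (KK 3)} {x : Loc k} {C : Co (KK 3) 3} {lab : Fin 3 → Option M.J}

theorem exists_pt (h : M.OK f) (B : M3E.Bas f M) (ho : P.o = M.v o) (V : ValuationSubring k)
    (h1 : ∀ c : ℂ, algebraMap ℂ k c ∈ V) (h2 : ∀ c ∈ xb P, c ∈ V) :
    ∃ Q ∈ M.pts, M.On Q o ∧ Le Q (lift P V) := by
  have hO : ∀ p, ip 3 p ∈ P.o.F 0 := fun p => ho ▸ B.ov_v o p
  have hV : Ov (lift P V) := ov_iff.2 ⟨fun c => ⟨hO (algebraMap ℂ _ c), P.π_cst c ▸ h1 c⟩,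
    fun l => ⟨hO (xp 3 l), h2 _ ⟨l, rfl⟩⟩⟩
  obtain ⟨b, hb⟩ := h.cov _ hV
  obtain ⟨Q, h3, h4⟩ := exists_le (chart_fg h b) hb
  exact ⟨Q, ⟨b, h3⟩, fun g hg => ho ▸ (h4 g hg).1, h4⟩

theorem F1_of {G : DV k} {y : k} (h : y ∈ G.O) (hn : ¬Un G.O y) : y ∈ G.F 1 := by
  by_cases h0 : y = 0
  · exact Or.inl h0
  have := h.resolve_left h0
  have h2 := not_and.1 (G.un_O.not.1 hn) h0
  exact Or.inr (by omega)

/-- A coordinate curve on the divisor is a double curve. -/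
theorem isCv (B : M3E.Bas f M) (ho : P.o = M.v o) (hQ : Pt3 M f Q C lab) (hx : Pr P Q x)
    {i : Fin 3} (hi : lab i = some o) {C' : Co k 2} (hC : P.RsC C i C') {l : Fin 2} {j : M.J}
    (hj : lab (i.succAbove l) = some j) {G : DV k} (hG : C'.Dat x.O G l) :
    M.IsCv o j (lift P G.O) := by
  obtain ⟨b, hb, hz⟩ := hQ.ch
  have hL : Le Q (lift P G.O) := le_lift hx hG.le
  have hb' : M.In b (lift P G.O) := fun g hg => hL g (hb.le hg)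
  have e1 : C'.z l = P.π (M.η b j) := by rw [hC l, hz _ _ hj]
  have hd := hQ.dat i o hi
  refine ⟨fun e => i.succAbove_ne l (hQ.inj _ _ o (e ▸ hj) hi), B.ov b _ hb', ho ▸ lift_le,
    (B.thru_iff b _ j hb').2 fun e => ?_, fun a ha g hg hn => ?_⟩
  · have := (G.un_O.1 (un_lift.1 e).2).2
    rw [← e1, hG.adp.vz] at this
    exact one_ne_zero this
  have hA : M.S.A b ≤ LA (M.S.A a) (lift P G.O) := B.lc b a _ hb' ha
  have hO : ∀ g ∈ Q.O, Lc (M.S.A a) (lift P G.O) g := fun g hg => by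
    obtain ⟨p, hp, q, hq, h0, e⟩ := hb.frac g hg
    rw [eq_div_of_mul_eq (RS.Loc.ne_zero_of_ev h0) e, div_eq_mul_inv]
    exact Lc.mul (hA hp) (Lc.inv (hA hq) (un_of_ev hL h0))
  have hη : ∀ t, Lc (M.S.A a) (lift P G.O) (M.η b t / M.η a t) := fun t => by
    have := sup_le hA le_LA (M.S.η_mem b a t)
    rwa [Units.val_div_eq_div_val] at this
  obtain ⟨s, s1, s2, s3⟩ := B.lc a b _ ha hb' g hg
  have h1 : P.π (s * g) ∈ G.F 1 := F1_of (hG.le _ (hx.mem (hb.le s3))) fun e =>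
    not_un_mul s2.2.1 (ha g hg) hn (un_lift.2 ⟨hx.1 _ (hb.le s3), e⟩)
  obtain ⟨p, hp, e⟩ := (hx.2 _).1 (hG.div _ (hx.mem (hb.le s3)) h1)
  have h2 := hb.le (B.η_mem b j)
  have h3 : s * g - p * M.η b j ∈ (M.v o).F 1 := ho ▸ Pl.π_eq (hx.1 _ (mul_mem hp h2))
    (hx.1 _ (hb.le s3)) (by
      rw [P.mul _ (hx.1 _ hp) _ (hx.1 _ h2), e, ← e1, div_mul_cancel₀ _ (C'.ne l)])
  have h4 := hd.div _ (sub_mem (hb.le s3) (mul_mem hp h2)) h3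
  rw [hz _ _ hi] at h4
  have hs := Lc.inv (hA s1) s2
  obtain ⟨t, t1, t2, t3⟩ := hs.mul ((hO _ h4).mul (hη o))
  obtain ⟨t', t1', t2', t3'⟩ := hs.mul ((hO _ hp).mul (hη j))
  refine ⟨_, mul_mem t1 t1', _, mul_mem t1' t3, _, mul_mem t1 t3', t2.mul t2', ?_⟩
  have := s2.1
  have := M.η_ne b o
  have := M.η_ne a o
  have := M.η_ne a j
  field_simp
  ring

end RSurf

open RSurf in
theorem rSurf : OfSURF := by
  intro E hc f M C lab o k _ _ P hM hP ho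
  classical
  have B := E.bas 3 f M hM
  have c1 := hc (KK 3)
  set Z := {Q ∈ M.pts | M.On Q o} with hZ
  have hI : ∀ Q ∈ Z, Ins P Q := fun Q hQ g hg => ho ▸ hQ.2 g hg
  obtain ⟨Q₀, q1, q2, -⟩ := exists_pt hM B ho ⊤ (fun _ => trivial) fun _ _ => trivial
  obtain ⟨x₀, hx₀⟩ := (hI Q₀ ⟨q1, q2⟩).exists_pr
  obtain ⟨rs, hrs⟩ : ∃ rs : Loc (KK 3) → Loc k, ∀ Q ∈ Z, Pr P Q (rs Q) := by
    refine ⟨fun Q => if h : Q ∈ Z then (hI Q h).exists_pr.choose else x₀, fun Q h => ?_⟩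
    simp only [dif_pos h]
    exact (hI Q h).exists_pr.choose_spec
  have hsep : ∀ V, ∀ Q ∈ Z, ∀ Q' ∈ Z, Dm (rs Q) V → Le (rs Q') V → Q = Q' :=
    fun V Q hQ Q' hQ' h h' => sep B hQ.1 hQ'.1 (dm_lift (hrs Q hQ) h) (le_lift (hrs Q' hQ') h')
  have hinj : InjOn rs Z := fun Q hQ Q' hQ' e => by
    obtain ⟨V, hV⟩ := exists_dm (rs Q)
    exact hsep V Q hQ Q' hQ' hV (e ▸ hV.1)
  have hex : ∀ Q ∈ Z, ∃ (i : Fin 3) (C' : Co k 2), lab Q i = some o ∧ P.RsC (C Q) i C' :=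
    fun Q hQ => by
      obtain ⟨i, hi⟩ := ((hP Q hQ.1).on o).1 hQ.2
      obtain ⟨C', h⟩ := exists_RsC (lift_der hM B ho) (ho ▸ ((hP Q hQ.1).dat i o hi).adp)
      exact ⟨i, C', hi, h⟩
  obtain ⟨i₀, C₀, -⟩ := hex Q₀ ⟨q1, q2⟩
  obtain ⟨ix, CC, lb, hCC⟩ : ∃ (ix : Loc (KK 3) → Fin 3) (CC : Loc k → Co k 2)
      (lb : Loc k → Fin 2 → Option M.J), ∀ Q ∈ Z, lab Q (ix Q) = some o ∧
        P.RsC (C Q) (ix Q) (CC (rs Q)) ∧ ∀ l, lb (rs Q) l = lab Q ((ix Q).succAbove l) := by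
    have : Nonempty (Co k 2) := ⟨C₀⟩
    have : Nonempty (Loc (KK 3)) := ⟨Q₀⟩
    choose! ix CC h1 h2 using hex
    refine ⟨ix, fun x => CC (Function.invFunOn rs Z x), fun x l => lab (Function.invFunOn rs Z x)
      ((ix (Function.invFunOn rs Z x)).succAbove l), fun Q hQ => ?_⟩
    simp only [hinj.leftInvOn_invFunOn hQ]
    exact ⟨h1 Q hQ, h2 Q hQ, fun _ => trivial⟩
  have hd : ∀ Q ∈ Z, (C Q).Dat Q.O P.o (ix Q) := fun Q hQ =>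
    ho ▸ (hP Q hQ.1).dat _ o (hCC Q hQ).1
  have him : ∀ W ⊆ Z, im P W = rs '' W := fun W hW => by
    ext x
    exact ⟨fun ⟨Q, h1, h2⟩ => ⟨Q, h1, (hrs Q (hW h1)).uniq h2⟩,
      fun ⟨Q, h1, h2⟩ => ⟨Q, h1, h2 ▸ hrs Q (hW h1)⟩⟩
  have hrg : ∀ Q ∈ Z, Rg (CC (rs Q)) (rs Q) := fun Q hQ => by
    have h1 := (hP Q hQ.1).rg
    have h2 := hrs Q hQ
    obtain ⟨b, hb, -⟩ := (hP Q hQ.1).ch
    refine ⟨(hCC Q hQ).2.1.st (hd Q hQ) h2.2 h1.st, fun l => ?_, fun y hy h0 => ?_, fun y => ?_⟩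
    · rw [(hCC Q hQ).2.1 l, h2.ev (h1.st.z _), h1.ev]
    · obtain ⟨g, hg, rfl⟩ := (h2.2 y).1 hy
      exact (hCC Q hQ).2.1.mx (hd Q hQ) h2.2 (h1.mx g hg (by rwa [h2.ev hg] at h0))
    · obtain ⟨g, hg, rfl⟩ := P.surj y
      obtain ⟨s, s1, s2, s3⟩ := B.frac b o (fun g hg => hQ.2 g (hb.le hg)) g (ho ▸ hg)
      rw [← ho] at s2
      refine ⟨_, h2.mem (hb.le s1), Pl.π_ne s2.1 (P.o.un_O.1 s2).2, ?_⟩
      rw [← P.mul _ s2.2.1 _ hg]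
      exact h2.mem (hb.le s3)
  have hlab : ∀ Q ∈ Z, ∀ j, (∃ l, lb (rs Q) l = some j) ↔ j ≠ o ∧ M.On Q j := fun Q hQ j => by
    obtain ⟨h1, -, h3⟩ := hCC Q hQ
    simp only [h3, (hP Q hQ.1).on]
    refine ⟨fun ⟨l, h⟩ => ⟨fun e => (ix Q).succAbove_ne l
      ((hP Q hQ.1).inj _ _ o (e ▸ h) h1), _, h⟩, fun ⟨h, i, hi⟩ => ?_⟩
    obtain ⟨l, rfl⟩ := Fin.exists_succAbove_eq (x := i) (y := ix Q) fun e =>
      h (Option.some_injective _ (hi.symm.trans (e ▸ h1)))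
    exact ⟨l, hi⟩
  refine ⟨{ X := rs '' Z, C := CC, con := ?_, rg := ?_, base := ?_, prop := ?_, sep := ?_,
            lab := lb, inj := ?_, str := fun j => ?_, cv := ?_, fin := ?_, fin2 := ?_ }, rs, ho,
    rfl, hinj, fun Q h1 h2 => (hrs Q ⟨h1, h2⟩).2, fun Q h1 h2 g hg => (hrs Q ⟨h1, h2⟩).ev hg,
    fun Q h1 i hi => ?_⟩
  · rw [← him Z Subset.rfl]
    simpa only [and_self] using con_on hM B c1 ho o
  · rintro _ ⟨Q, hQ, rfl⟩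
    exact hrg Q hQ
  · rintro _ ⟨Q, hQ, rfl⟩ _ ⟨l, rfl⟩
    obtain ⟨b, hb⟩ := hQ.1
    exact (hrs Q hQ).mem (hb.le (hM.xx_mem b l))
  · intro V h1 h2
    obtain ⟨Q, a1, a2, a3⟩ := exists_pt hM B ho V h1 h2
    refine ⟨_, ⟨Q, ⟨a1, a2⟩, rfl⟩, fun y hy => ?_⟩
    obtain ⟨g, hg, rfl⟩ := ((hrs Q ⟨a1, a2⟩).2 y).1 hy
    exact (a3 g hg).2
  · rintro V _ ⟨Q, hQ, rfl⟩ _ ⟨Q', hQ', rfl⟩ h h'
    rw [hsep V Q hQ Q' hQ' h h']
  · rintro _ ⟨Q, hQ, rfl⟩ l l' j h h'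
    rw [(hCC Q hQ).2.2] at h h'
    exact Fin.succAbove_right_injective ((hP Q hQ.1).inj _ _ j h h')
  · by_cases hj : j = o
    · convert conP_empty (L := k)
      refine eq_empty_of_forall_notMem ?_
      rintro _ ⟨⟨Q, hQ, rfl⟩, h⟩
      exact ((hlab Q hQ j).1 h).1 hj
    · convert con_on hM B c1 ho j using 1
      rw [him _ fun Q hQ => ⟨hQ.1, hQ.2.1⟩]
      ext x
      constructor
      · rintro ⟨⟨Q, hQ, rfl⟩, h⟩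
        exact ⟨Q, ⟨hQ.1, hQ.2, ((hlab Q hQ j).1 h).2⟩, rfl⟩
      · rintro ⟨Q, hQ, rfl⟩
        exact ⟨⟨Q, ⟨hQ.1, hQ.2.1⟩, rfl⟩, (hlab Q ⟨hQ.1, hQ.2.1⟩ j).2 ⟨hj, hQ.2.2⟩⟩
  · rintro _ ⟨Q, hQ, rfl⟩ _ ⟨Q', hQ', rfl⟩ l j G h1 h2 h3
    by_cases hD : Dm (rs Q') G.O
    · rw [hsep _ Q' hQ' Q hQ hD h2.le]
      exact ⟨l, h1, h2⟩
    rw [(hCC Q hQ).2.2] at h1
    have hV := isCv B ho (hP Q hQ.1) (hrs Q hQ) (hCC Q hQ).1 (hCC Q hQ).2.1 h1 h2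
    obtain ⟨b, hb, hz⟩ := (hP Q hQ.1).ch
    obtain ⟨b', hb', hz'⟩ := (hP Q' hQ'.1).ch
    have hL := le_lift (V := G.O) (hrs Q hQ) h2.le
    have hL' := le_lift (hrs Q' hQ') h3
    have hi : M.In b (lift P G.O) := fun g hg => hL g (hb.le hg)
    have hi' : M.In b' (lift P G.O) := fun g hg => hL' g (hb'.le hg)
    obtain ⟨l', hl'⟩ := (hlab Q' hQ' j).2 ⟨hV.1, (on_iff hM B hb' j).2
      (by_contra fun e => hV.2.2.2.1 b' hi' (un_of_ev hL' e))⟩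
    refine ⟨l', hl', dat_of_le (hrg Q' hQ') h3 hD ?_⟩
    rw [(hCC Q' hQ').2.2] at hl'
    have a1 := un_lift.1 (B.un_η b' b _ j hi' hi)
    have a2 := h2.adp.vz
    rw [(hCC Q hQ).2.1 l, hz _ _ h1] at a2
    rw [(hCC Q' hQ').2.1 l', hz' _ _ hl', ← div_mul_cancel₀ (M.η b' j) (M.η_ne b j),
      P.mul _ a1.1 _ (hi _ (B.η_mem b j)).1, G.mul _ _ a1.2.1 (M3B1.ne_of_v a2), a2,
      (G.un_O.1 a1.2).2, zero_add]
  · refine Finite.of_finite_image (f := fun G => lift P G.O)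
      (((E.cv 3 f M hM).fin o).subset ?_) ?_
    · rintro _ ⟨G, ⟨_, ⟨Q, hQ, rfl⟩, l, j, h1, h2⟩, rfl⟩
      rw [(hCC Q hQ).2.2] at h1
      exact ⟨j, isCv B ho (hP Q hQ.1) (hrs Q hQ) (hCC Q hQ).1 (hCC Q hQ).2.1 h1 h2⟩
    · rintro G ⟨_, -, _, _, -, h⟩ G' ⟨_, -, _, _, -, h'⟩ e
      exact M3B1.dv_eq h.adp.vz h'.adp.vz (lift_inj e)
  · refine ((finite_iUnion fun p : M.ι × (Fin 3 → M.J) =>
      @fin_pts _ _ _ _ _ ((E.nb 3 f M hM).noeth p.1) 3 fun i =>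
        ⟨M.η p.1 (p.2 i), B.η_mem _ _⟩).image rs).subset ?_
    rintro _ ⟨⟨Q, hQ, rfl⟩, h0, h1⟩
    obtain ⟨b, hb, hz⟩ := (hP Q hQ.1).ch
    have h2 : ∀ i, ∃ j, lab Q i = some j := fun i => by
      rcases Fin.eq_self_or_eq_succAbove (ix Q) i with rfl | ⟨l, rfl⟩
      · exact ⟨o, (hCC Q hQ).1⟩
      · rw [← (hCC Q hQ).2.2]
        refine Option.ne_none_iff_exists'.1 ?_
        fin_cases l
        exacts [h0, h1]
    choose τ hτ using h2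
    refine ⟨Q, mem_iUnion.2 ⟨(b, τ), hb, fun i => ?_, fun g hg e => ?_⟩, rfl⟩
    · exact (congrArg Q.ev (hz i _ (hτ i))).symm.trans ((hP Q hQ.1).rg.ev i)
    · obtain ⟨p, hp, e⟩ := (hP Q hQ.1).rg.mx g hg e
      exact ⟨p, hp, e.trans (Finset.sum_congr rfl fun i _ => by rw [hz i _ (hτ i)])⟩
  · have hQ : Q ∈ Z := ⟨h1, ((hP Q h1).on o).2 ⟨i, hi⟩⟩
    rw [(hP Q h1).inj _ _ o hi (hCC Q hQ).1]
    exact (hCC Q hQ).2

end Pool.Agent.MP_ee8c61_ag.N3.BK
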