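import Pool.Agent.MP_ee8c61_ag.N3BK.Spec
import Pool.Agent.MP_ee8c61_ag.M3RESID.Res
import Pool.Agent.MP_96693b_ag.DR.RAff

/-! Dominating surfaces on which given functions are monomial. -/

namespace Pool.Agent.MP_ee8c61_ag.N3.BK

open M3 M3BK

set_option linter.unusedSectionVars false

variable [Base]

open M3 M3RESID Set
open Pool.Agent.MP_96693b_ag.RS (Loc LocOf)
open Pool.Agent.MP_96693b_ag

namespace RUp

variable {f : Po 3} {M : Mod 3} {b : M.ι} {Q : Loc (KK 3)} {g : KK 3}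

theorem fg (h : M.OK f) (b : M.ι) : (M.S.A b).FG := by
  have h1 : (M.S.zh b).toRingHom.FiniteType :=
    RingHom.FiniteType.of_finitePresentation
      (RingHom.Etale.iff_flat_and_formallyUnramified.1 (h.et b)).2.2
  have h2 := RingHom.FiniteType.comp h1 (RingHom.finiteType_algebraMap.2
    (inferInstance : Algebra.FiniteType ℂ (MvPolynomial (Fin 3) ℂ)))
  have h3 : (M.S.zh b).toRingHom.comp (algebraMap ℂ _) = algebraMap ℂ _ :=
    (M.S.zh b).comp_algebraMap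
  rw [h3] at h2
  exact (Subalgebra.fg_iff_finiteType _).2 (RingHom.finiteType_algebraMap.1 h2)

theorem un_of {V : Vl 3} (hV : Le Q V) (h : Q.ev g ≠ 0) : Un V g :=
  ⟨RS.Loc.ne_zero_of_ev h, hV _ (RS.Loc.mem_of_ev h),
    hV _ (Q.inv_mem _ (RS.Loc.mem_of_ev h) h)⟩

/-- A unit of all valuation rings above a point is a unit at the point. -/
theorem unit (hN : M3E.Nb M) (hQ : LocOf (M.S.A b) Q) (h0 : g ≠ 0)
    (h : ∀ V : Vl 3, Le Q V → Un V g) : Q.ev g ≠ 0 := by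
  have key : ∀ g, (∀ V : Vl 3, (∀ s ∈ Q.O, s ∈ V) → g ∈ V) → g ∈ Q.O :=
    hN.loc b Q.O hQ.le fun g hg => by
      obtain ⟨p, hp, q, hq, h1, h2⟩ := hQ.frac g hg
      exact ⟨q, hq, RS.Loc.ne_zero_of_ev h1, Q.inv_mem q (hQ.le hq) h1,
        by rw [mul_comm, h2]; exact hp⟩
  have h3 := Q.ev_mul g (key g fun V hV => (h V hV).2.1) g⁻¹ (key _ fun V hV => (h V hV).2.2)
  rw [mul_inv_cancel₀ h0, RS.Loc.ev_one] at h3
  exact left_ne_zero_of_mul (h3 ▸ one_ne_zero)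

theorem dom (hN : M3E.Nb M) (hQ : LocOf (M.S.A b) Q) :
    ∃ V, M.In b V ∧ ∀ g ∈ M.S.A b, Un V g ↔ Q.ev g ≠ 0 := by
  let φ : M.S.A b →+* ℂ :=
    { toFun := fun g => Q.ev g
      map_one' := RS.Loc.ev_one
      map_mul' := fun g g' => Q.ev_mul _ (hQ.le g.2) _ (hQ.le g'.2)
      map_zero' := RS.Loc.ev_zero
      map_add' := fun g g' => Q.ev_add _ (hQ.le g.2) _ (hQ.le g'.2) }
  obtain ⟨V, h1, h2⟩ := hN.pt b (RingHom.ker φ) (RingHom.ker_isPrime φ)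
  exact ⟨V, h1, fun g hg => iff_not_comm.1 (RingHom.mem_ker.symm.trans (h2 ⟨g, hg⟩))⟩

theorem on_of (hB : M3E.Bas f M) (hN : M3E.Nb M) (hQ : LocOf (M.S.A b) Q) {j : M.J}
    (h : Q.ev (M.η b j) = 0) : M.On Q j := by
  obtain ⟨V, h1, h2⟩ := dom hN hQ
  obtain ⟨h3, -, -, h4⟩ := hB.in_v b V j h1
    ((hB.thru_iff b V j h1).2 fun e => (h2 _ (hB.η_mem b j)).1 e h)
  intro g hg
  obtain ⟨p, hp, q, hq, h5, h6⟩ := hQ.frac g hg
  rw [eq_div_of_mul_eq (RS.Loc.ne_zero_of_ev h5) h6]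
  simpa [h4 q hq ((h2 q hq).2 h5)] using F_div (h3 p hp : p ∈ (M.v j).F 0) q

/-- A member of a generating family generates at the point. -/
theorem gens (hB : M3E.Bas f M) (hN : M3E.Nb M) (hQ : Q ∈ M.pts) {c : M.J → ℤ}
    {T : Finset (KK 3)} (h : M.Gens c T) :
    ∃ g ∈ T, g ≠ 0 ∧ (∀ V, Le Q V → M.Gen V c g) ∧ ∀ g' ∈ T, g' / g ∈ Q.O := by
  obtain ⟨b, hb⟩ := hQ
  obtain ⟨V, h1, h2⟩ := dom hN hb
  obtain ⟨g, hg, h3⟩ := h.2 V (hB.ov b V h1)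
  have h4 := fun g hg => (hN.H c g).1 (h.1 g hg) b
  have h5 := (h2 _ (h4 g hg)).1 (h3 b h1)
  refine ⟨g, hg, left_ne_zero_of_mul (h3 b h1).1, fun V' hV => ?_, fun g' hg' => ?_⟩
  · exact (hB.gen_iff b V' c g fun s hs => hV s (hb.le hs)).2 (un_of hV h5)
  · rw [← mul_div_mul_right g' g (M.mon_ne b c), div_eq_mul_inv]
    exact mul_mem (hb.le (h4 g' hg')) (Q.inv_mem _ (hb.le (h4 g hg)) h5)

variable {C : Co (KK 3) 3} {lab : Fin 3 → Option M.J}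

theorem gen_mon (hB : M3E.Bas f M) (hN : M3E.Nb M) (h : Pt3 M f Q C lab) (c : M.J → ℤ)
    {V : Vl 3} (hV : Le Q V) : M.Gen V (-c) (C.mon fun i => (lab i).elim 0 c) := by
  classical
  obtain ⟨b, hb, hz⟩ := h.ch
  have e : (C.mon fun i => (lab i).elim 0 c) = ∏ j, if M.On Q j then M.η b j ^ c j else 1 := by
    have e1 : ∀ i, C.z i ^ (lab i).elim 0 c = ∏ j, if lab i = some j then M.η b j ^ c j else 1 :=
      fun i => by
        rcases hi : lab i with _ | j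
        · simp
        · simp [hz i j hi]
    rw [Co.mon, Finset.prod_congr rfl fun i _ => e1 i, Finset.prod_comm]
    refine Finset.prod_congr rfl fun j _ => ?_
    split_ifs with hj
    · obtain ⟨i, hi⟩ := (h.on j).1 hj
      rw [Finset.prod_eq_single i (fun i' _ hn => if_neg fun e => hn (h.inj _ _ _ e hi))
        (by simp), if_pos hi]
    · exact Finset.prod_eq_one fun i _ => if_neg fun e => hj ((h.on j).2 ⟨i, e⟩)
  rw [hB.gen_iff b V _ _ fun s hs => hV s (hb.le hs), e, M.mon_eq, ← Finset.prod_mul_distrib]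
  refine Un.prod _ fun j _ => ?_
  split_ifs with hj
  · rw [Pi.neg_apply, zpow_neg, mul_inv_cancel₀ (zpow_ne_zero _ (M.η_ne b j))]
    exact un_one
  · rw [one_mul]
    exact (un_of hV fun e => hj (on_of hB hN hb e)).zpow _

section Sf

variable {C : Loc (KK 3) → Co (KK 3) 3} {lab : Loc (KK 3) → Fin 3 → Option M.J} {o : M.J}
  {k : Type} [Field k] [Algebra ℂ k] {P : Pl (KK 3) k} {S : LSf k (xb P) M.J}
  {rs : Loc (KK 3) → Loc k}

theorem res (hP : Pts M f C lab) (hS : IsSf M C lab o P S rs) (hQ : Q ∈ M.pts) (ho : M.On Q o)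
    (c : M.J → ℤ) : P.π ((C Q).mon fun i => (lab Q i).elim 0 (Function.update c o 0)) =
      (S.C (rs Q)).mon (S.em c (rs Q)) := by
  obtain ⟨i, hi⟩ := ((hP Q hQ).on o).1 ho
  obtain ⟨h1, h2⟩ := hS.crd Q hQ i hi
  have h3 : (C Q).At P.o i := hS.po ▸ ((hP Q hQ).dat i o hi).adp
  rw [h1.mon h3 (by simp [hi])]
  congr 1
  funext l
  rw [LSf.em, h2]
  rcases hl : lab Q (i.succAbove l) with _ | j
  · rfl
  · exact Function.update_of_ne (fun e => i.succAbove_ne l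
      ((hP Q hQ).inj _ _ _ (e ▸ hl) hi)) _ _

/-- A local generator of order zero along the surface restricts to a monomial. -/
theorem mn (hB : M3E.Bas f M) (hN : M3E.Nb M) (hP : Pts M f C lab) (hS : IsSf M C lab o P S rs)
    (hQ : Q ∈ M.pts) (ho : M.On Q o) {c : M.J → ℤ} (h : ∀ V, Le Q V → M.Gen V (-c) g)
    (h0 : P.o.v g = 0) : S.Mn (P.π g) c (rs Q) := by
  obtain ⟨h1, h2⟩ := (hB.gen_v o _ g).1 (h _ ho)
  obtain ⟨h3, h4⟩ := (hB.gen_v o _ _).1 (gen_mon hB hN (hP Q hQ) c ho)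
  rw [← hS.po] at h2 h4
  have h5 : Function.update c o 0 = c :=
    Function.update_eq_self_iff.2 (by simpa [h0] using h2)
  have h6 := res hP hS hQ ho c
  rw [h5] at h6
  obtain ⟨b, hb⟩ := id hQ
  have h7 := unit hN hb (div_ne_zero h1 h3) fun V hV => by
    have h8 : M.In b V := fun s hs => hV s (hb.le hs)
    rw [← mul_div_mul_right _ _ (M.mon_ne b (-c))]
    exact (h V hV b h8).div (gen_mon hB hN (hP Q hQ) c hV b h8)
  rw [LSf.Mn, ← h6, ← Pl.π_div (Or.inr h0.ge) h3 (h4.trans (h2.symm.trans h0)),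
    hS.ev Q hQ ho _ (RS.Loc.mem_of_ev h7)]
  exact h7

end Sf

end RUp

open RUp in
theorem rUp : OfUP := by
  intro hE hPT hSF hAD f la b β Q₀ M C lab o k _ _ P S rs e H hM hP hS ho he T hT
  classical
  have hB := hE.bas 3 f M hM
  have hN := hE.nb 3 f M hM
  have h1 : ∀ ψ : T, ∃ (p q : Po 3) (r : ℕ), ip 3 p ≠ 0 ∧ ip 3 q ≠ 0 ∧
      P.o.v (ip 3 p) = P.o.v (ip 3 q) ∧ P.o.v (ip 3 p) < P.o.v (ip 3 f ^ r) ∧
      P.π (ip 3 p / ip 3 q) = ψ := fun ψ => by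
    obtain ⟨g, hg, e⟩ := P.surj ψ
    have h0 : P.π g ≠ 0 := fun h => hT (h ▸ e ▸ ψ.2)
    have h2 : g ∉ P.o.F 1 := fun h => h0 (P.π_F1 h)
    obtain ⟨p, q, -, rfl⟩ := IsFractionRing.div_surjective (A := Po 3) g
    obtain ⟨h3, h4⟩ := div_ne_zero_iff.1 (not_or.1 h2).1
    have h5 := P.o.div h3 h4
    have h6 := hg.resolve_left (not_or.1 h2).1
    have h7 := (not_or.1 h2).2
    have h8 := ((hB.gen_v o _ _).1 (hB.gen_f _)).2
    have h9 : (1 : ℤ) ≤ M.a o := by exact_mod_cast hM.pos o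
    refine ⟨p, q, (P.o.v (ip 3 p)).toNat + 1, h3, h4, ?_, ?_, e⟩
    · change P.o.v (algebraMap _ _ p) = P.o.v (algebraMap _ _ q)
      omega
    · rw [DV.pow, hS.po, h8, Pi.neg_apply, neg_neg]
      exact lt_of_lt_of_le (by omega) (le_mul_of_one_le_right (by omega) h9)
  choose p q r hp hq hv hr hπ using h1
  let F : T × Fin 3 → Finset (KK 3) := fun i => insert (ip 3 f ^ r i.1)
    (![{ip 3 (p i.1)}, {ip 3 (q i.1)}, {ip 3 (p i.1), ip 3 (q i.1)}] i.2)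
  have hpol : ∀ s : Po 3, ip 3 s ∈ M.H 0 := fun s V hV a _ => by
    rw [hB.mon_zero, mul_one]
    exact hV s
  obtain ⟨W, hW, ⟨D⟩, hG⟩ := hE.b1 3 f M hM (T × Fin 3) F (fun ⟨ψ, i⟩ => ⟨0, fun g hg => by
    rcases Finset.mem_insert.1 hg with rfl | hg
    · exact map_pow (ip 3) f _ ▸ hpol _
    · fin_cases i <;> simp at hg <;> rcases hg with rfl | rfl <;> exact hpol _⟩)
    fun i => ⟨r i.1, Finset.mem_insert_self _ _⟩
  choose c hc using hG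
  have hB' := hE.bas 3 f W hW
  have hN' := hE.nb 3 f W hW
  have hD := hE.dc 3 f W M D hW hM
  have hpo : P.o = W.v (D.e o) := hS.po.trans (D.v o).symm
  obtain ⟨C', lab', hP'⟩ := hPT f W H.ne hW
  obtain ⟨S', rs', hS'⟩ := hSF f W C' lab' (D.e o) k P hW hP' hpo
  have ho' : W.ex la (D.e o) = 0 := by
    have h2 : (W.a (D.e o) : ℤ) = M.a o := (congrFun hD.aa _).symm.trans (hD.pb_e ℤ M.aa o)
    rw [← ho, Mod.ex, Mod.ex, (hE.jd 3 f W M D hW hM).2 o, Nat.cast_injective h2]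
  have hX : ∀ x' ∈ S'.X, ∃ Q ∈ W.pts, W.On Q (D.e o) ∧ x' = rs' Q := fun x' hx => by
    rw [hS'.X] at hx
    obtain ⟨Q, hQ, rfl⟩ := hx
    exact ⟨Q, hQ.1, hQ.2, rfl⟩
  have hf : ∀ Q ∈ W.pts, W.On Q (D.e o) → ∀ (ψ : T) g, g ≠ 0 → P.o.v g = P.o.v (ip 3 (p ψ)) →
      g / ip 3 f ^ r ψ ∉ Q.O := fun Q _ h ψ g h0 h2 h3 => by
    have h4 := pow_ne_zero (r ψ) (show ip 3 f ≠ 0 from fun e => H.ne (Subtype.ext e))
    have h5 := (h _ h3).resolve_left (div_ne_zero h0 h4)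
    rw [← hpo, P.o.div h0 h4, h2] at h5
    exact absurd (hr ψ) (by omega)
  refine ⟨W.J, inferInstance, S', _, D.pb (Function.update M.aa o 0),
    (hAD f la b β Q₀ W C' lab' _ k P S' rs' e 0 H hW hP' hS' ho' he).1, fun x' hx => ?_,
    fun ψ hψ => ⟨⟨c (⟨ψ, hψ⟩, 1) - c (⟨ψ, hψ⟩, 0), fun x' hx => ?_⟩, fun x' hx => ?_⟩⟩
  · obtain ⟨Q', hQ', h2, rfl⟩ := hX x' hx
    obtain ⟨a', ha'⟩ := id hQ'
    obtain ⟨V, h3, h4⟩ := dom hN' ha'
    obtain ⟨a, ha⟩ := D.loc a' V h3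
    obtain ⟨Q, hQ, hle⟩ := RS.exists_locOf_le (L := Q') (fg hM a) fun g hg => by
      obtain ⟨s, hs, h5, h6⟩ := ha g hg
      rw [← inv_mul_cancel_left₀ h5.1 g]
      exact mul_mem (Q'.inv_mem s (ha'.le hs) ((h4 s hs).1 h5)) (ha'.le h6)
    have h5 : M.On Q o := fun g hg => D.v o ▸ h2 g (hle hg)
    have h6 : Q ∈ M.pts := ⟨a, hQ⟩
    refine ⟨rs Q, hS.X ▸ mem_image_of_mem rs ⟨h6, h5⟩, fun y hy => ?_, ?_⟩
    · obtain ⟨g, hg, rfl⟩ := (hS.O Q h6 h5 y).1 hy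
      exact (hS'.O Q' hQ' h2 _).2 ⟨g, hle hg, rfl⟩
    · rw [← res hP hS h6 h5]
      refine mn hB' hN' hP' hS' hQ' h2 (fun V hV => ?_) ?_
      · rw [← D.pb_neg, ← hD.gen V _ _ (hB'.ov a' V fun s hs => hV s (ha'.le hs))]
        exact gen_mon hB hN (hP Q h6) _ fun s hs => hV s (hle hs)
      · rw [hS.po, ((hB.gen_v o _ _).1 (gen_mon hB hN (hP Q h6) _ h5)).2]
        simp
  · obtain ⟨Q, hQ, h2, rfl⟩ := hX x' hx
    obtain ⟨g, hg, -, h3, h4⟩ := gens hB' hN' hQ (hc (⟨ψ, hψ⟩, 0))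
    obtain ⟨g', hg', -, h5, h6⟩ := gens hB' hN' hQ (hc (⟨ψ, hψ⟩, 1))
    obtain rfl : g = ip 3 (p ⟨ψ, hψ⟩) := by
      rcases Finset.mem_insert.1 hg with rfl | hg
      · exact absurd (h4 _ (by simp [F])) (hf Q hQ h2 _ _ (hp _) rfl)
      · simpa using hg
    obtain rfl : g' = ip 3 (q ⟨ψ, hψ⟩) := by
      rcases Finset.mem_insert.1 hg' with rfl | hg'
      · exact absurd (h6 _ (by simp [F])) (hf Q hQ h2 _ _ (hq _) (hv _).symm)
      · simpa using hg'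
    refine (congrArg (fun t => S'.Mn t _ _) (hπ ⟨ψ, hψ⟩)).mp (mn hB' hN' hP' hS' hQ h2
      (fun V hV => ?_) (by rw [P.o.div (hp _) (hq _), hv, sub_self]))
    rw [neg_sub, sub_eq_add_neg, div_eq_mul_inv]
    exact hB'.gen_mul V _ _ _ _ (h3 V hV) (hB'.gen_inv V _ _ (h5 V hV))
  · obtain ⟨Q, hQ, h2, rfl⟩ := hX x' hx
    obtain ⟨g, hg, -, -, h4⟩ := gens hB' hN' hQ (hc (⟨ψ, hψ⟩, 2))
    have h5 := h4 (ip 3 (p ⟨ψ, hψ⟩)) (by simp [F])
    have h6 := h4 (ip 3 (q ⟨ψ, hψ⟩)) (by simp [F])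
    have h7 : P.π (ip 3 (p ⟨ψ, hψ⟩) / ip 3 (q ⟨ψ, hψ⟩)) = ψ := hπ ⟨ψ, hψ⟩
    rcases Finset.mem_insert.1 hg with rfl | hg
    · exact absurd h5 (hf Q hQ h2 _ _ (hp _) rfl)
    rcases Finset.mem_insert.1 hg with rfl | hg
    · refine Or.inr ((hS'.O Q hQ h2 _).2 ⟨_, h6, ?_⟩)
      rw [← inv_div, ← one_div, Pl.π_div one_F (div_ne_zero (hp _) (hq _))
        (by rw [P.o.div (hp _) (hq _), hv, sub_self]), P.π_one, h7, one_div]
    · rw [Finset.mem_singleton.1 hg] at h5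
      exact Or.inl ((hS'.O Q hQ h2 _).2 ⟨_, h5, h7⟩)

end Pool.Agent.MP_ee8c61_ag.N3.BK
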