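import Pool.Agent.MP_ee8c61_ag.N3BK.Spec
import Pool.Agent.MP_ee8c61_ag.M3BK.XDefs

/-! The functional equation at a double curve. -/

namespace Pool.Agent.MP_ee8c61_ag.N3.BK

open M3 M3BK M3RESID Set
open Pool.Agent.MP_96693b_ag.RS (Loc LocOf)

noncomputable section

variable [Base]

/-- The derivative of the functional equation at the generic point of a double curve. -/
def STP : Prop := ∀ (f : Po 3) (la : ℚ) (b : Polynomial ℂ) β q (M : Mod 3) (Q : Loc (KK 3))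
  (C : Co (KK 3) 3) (lab : Fin 3 → Option M.J) (i i' : Fin 3) (o o' : M.J)
  (A : Subalgebra ℂ (KK 3)), Hyp f la b β q → M.OK f → Pt3 M f Q C lab → lab i = some o →
  lab i' = some o' → M.ex la o = 0 → M.ex la o' = 0 → Lz Q.O A →
  (∀ l, l ≠ i → l ≠ i' → (C.z l)⁻¹ ∈ A) →
  ∃ H ∈ C.G A {i, i'} 0, ∃ X ∈ C.G A {i, i'} 0, bf la β - H ∈ (dvf f la).Ex ∧
    (H (ip 3 f) / ip 3 f - (dvf f la).δ X) / C.z i ∈ A

end

end Pool.Agent.MP_ee8c61_ag.N3.BK
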