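import Pool.Agent.MP_ee8c61_ag.N3BK.RAd
import Pool.Agent.MP_ee8c61_ag.M3BK.RBkl
import Pool.Agent.MP_ee8c61_ag.N3BK.RBook
import Pool.Agent.MP_ee8c61_ag.N3BK.RCht
import Pool.Agent.MP_ee8c61_ag.M3BK.RCmp
import Pool.Agent.MP_ee8c61_ag.N3BK.RCross
import Pool.Agent.MP_ee8c61_ag.M3BK.RCrv
import Pool.Agent.MP_ee8c61_ag.M3BK.RCur
import Pool.Agent.MP_ee8c61_ag.M3BK.RDls
import Pool.Agent.MP_ee8c61_ag.M3BK.RFl
import Pool.Agent.MP_ee8c61_ag.M3BK.RIntA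
import Pool.Agent.MP_ee8c61_ag.M3BK.RIntB
import Pool.Agent.MP_ee8c61_ag.M3BK.RLau
import Pool.Agent.MP_ee8c61_ag.M3BK.RM0
import Pool.Agent.MP_ee8c61_ag.M3BK.RNrm
import Pool.Agent.MP_ee8c61_ag.M3BK.RP1
import Pool.Agent.MP_ee8c61_ag.M3BK.RPol
import Pool.Agent.MP_ee8c61_ag.M3BK.RPos
import Pool.Agent.MP_ee8c61_ag.N3BK.RPt
import Pool.Agent.MP_ee8c61_ag.M3BK.RRg
import Pool.Agent.MP_ee8c61_ag.N3BK.RSrf
import Pool.Agent.MP_ee8c61_ag.N3BK.RSurf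
import Pool.Agent.MP_ee8c61_ag.M3BK.RTh
import Pool.Agent.MP_ee8c61_ag.M3BK.RType
import Pool.Agent.MP_ee8c61_ag.N3BK.RUp
import Pool.Agent.MP_ee8c61_ag.M3BK.RXc

/-! The cancellation of the pole from the rows. -/

namespace Pool.Agent.MP_ee8c61_ag.N3.BK

open M3 M3BK

set_option linter.unusedSectionVars false

variable [Base]

open M3

theorem book_of (hE : M3E.EOut) (hO : SCON) (hX : SCHI) : SBOOK :=
  have A := rIntA hO hX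
  have B := rIntB hO hX A
  have Ex := rExc rNrm
  have Cu := rCur rP1
  have Pl := rPl rNrm rCrv rFl Cu rP1
  have Pt := rPt hE
  have Sf := rSurf hE hO
  rBook hE hO hX A B rPol Pt Sf rAd (rSrf hE Pt) (rCht hE hO hX) (rUp hE Pt Sf rAd)
    (rBkl hO A B rLau rNrm rCrv rPos (rType rNrm rCrv rFl)
      (rCmp hO A B rNrm Ex (rDls hO hX A B rNrm rCrv rFl Ex)) (rM0 hO hX A B rNrm) rFl rP1
      (rRg_of rPl hO hX A B rNrm rCrv rFl Cu rP1) Pl (rXc (rCre' rNrm) rP1 (rTh rP1) (rSum rP1)))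
    (rCross hE rFl rP1 (rTh rP1) (rSum rP1) Pl rAd)

end Pool.Agent.MP_ee8c61_ag.N3.BK
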