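import Pool.Agent.MP_ee8c61_ag.N3BK.XDefs
import Pool.Agent.MP_ee8c61_ag.M3BK.XCore

/-! The cross function on a double curve: its logarithmic derivative and its orders. -/

namespace Pool.Agent.MP_ee8c61_ag.N3.BK

open Pool.Agent.MP_ee8c61_ag.M3 Pool.Agent.MP_ee8c61_ag.M3RESID Pool.Agent.MP_ee8c61_ag.M3BK Set
open Pool.Agent.MP_96693b_ag.RS (Loc LocOf)

set_option linter.unusedSectionVars false

variable [Base]

variable {k k' : Type} [Field k] [Algebra ℂ k] [Field k'] [Algebra ℂ k'] {f : Po 3} {la : ℚ}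
  {b : Polynomial ℂ} {β : Fin 3 → H59.PX 3 (KK 3)} {q : H59.PX 3 (KK 3)} {M : Mod 3}
  {Q Q0 : Loc (KK 3)} {C : Co (KK 3) 3} {lab : Fin 3 → Option M.J} {i i' : Fin 3} {o o' : M.J}
  {P : Pl (KK 3) k} {C2 : Co k 2} {x : Loc k} {m : Fin 2} {G : DV k} {P' : Pl (KK 3) k'}
  {C2' : Co k' 2} {x' : Loc k'} {m' : Fin 2} {G' : DV k'} {e : Dv k} {v : VF k} {e' : Dv k'}
  {v' : VF k'}

theorem la_eq (hB : M3E.Bas1 M) (hQ : Q ∈ M.pts) (hQ0 : Q0 ∈ M.pts) {V : Vl 3} (h : Le Q V)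
    (h0 : Le Q0 V) : LA Q.O V = LA Q0.O V := by
  have key : ∀ Q ∈ M.pts, ∀ Q0 ∈ M.pts, Le Q V → Le Q0 V → LA Q.O V ≤ LA Q0.O V := by
    rintro Q ⟨a, ha⟩ Q0 ⟨a0, ha0⟩ h h0 g hg
    refine lc_trans (fun g hg => Lc.of_mem (ha0.le hg)) (lc_trans
      (hB.lc a a0 V (fun g hg => h g (ha.le hg)) fun g hg => h0 g (ha0.le hg))
      (lc_trans (fun g hg => ?_) hg))
    obtain ⟨p, hp, s, hs, h1, h2⟩ := ha.frac g hg
    exact ⟨s, hs, un_of_ev h h1, by rwa [mul_comm, h2]⟩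
  exact le_antisymm (key _ hQ _ hQ0 h h0) (key _ hQ0 _ hQ h0 h)

theorem exp_tw (hQ : Pt3 M f Q C lab) (li : lab i = some o) (li' : lab i' = some o')
    (eo : M.ex la o = 0) (eo' : M.ex la o' = 0) (T : Tw C Q i i' P C2 x m G)
    (r : P.RsD (dvf f la) e) : Exp (dvf f la) P.o 0 ∧ Exp e G 0 := by
  have h1 : Exp (dvf f la) P.o 0 := by simpa [li, eo] using T.dat.exp (hQ.ad la)
  exact ⟨h1, by simpa [T.idx, li', eo'] using T.dat2.exp (T.rc.Ad T.dat T.ro h1 r (hQ.ad la))⟩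

/-- The logarithmic derivative of a unit along the residue is a divergence. -/
theorem coreA (hG : SGDL) (hT : STP) (hy : Hyp f la b β q) (hM : M.OK f) (hQ : Pt3 M f Q C lab)
    (li : lab i = some o) (li' : lab i' = some o') (eo : M.ex la o = 0) (eo' : M.ex la o' = 0)
    (T : Tw C Q i i' P C2 x m G) (T' : Tw C Q i' i P' C2' x' m' G') (r : P.RsD (dvf f la) e)
    (s : P.Res (dvf f la) (bf la β) v) (r' : P'.RsD (dvf f la) e')
    (s' : P'.Res (dvf f la) (bf la β) v') {Ψ Ψ' : KK 3} {p p' : ℤ}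
    (h1 : Ψ ∈ LA Q.O (lift P G)) (h2 : Un (lift P G) Ψ) (h1' : Ψ' ∈ LA Q.O (lift P' G'))
    (h2' : Un (lift P' G') Ψ') (g : Pool.Agent.MP_ee8c61_ag.M3BK.Gd e v (P.π (C.z i' ^ p * Ψ)))
    (g' : Pool.Agent.MP_ee8c61_ag.M3BK.Gd e' v' (P'.π (C.z i ^ p' * Ψ'))) (n n' n'' : ℤ) {Θ : KK 3}
    (hΘ : Θ = (C.z i' ^ p * Ψ) ^ n * (C.z i ^ p' * Ψ') ^ n' * ip 3 f ^ n'')
    (hu : Un (lift P G) Θ) {e2 : Dv G.kf} (r2 : G.pl.RsD e e2) :
    ∃ w Y, G.pl.Res e v w ∧ w (G.pl.π (P.π Θ)) / G.pl.π (P.π Θ) = e2.δ Y := by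
  obtain ⟨x1, x2⟩ := exp_tw hQ li li' eo eo' T r
  obtain ⟨-, x2'⟩ := exp_tw hQ li' li eo' eo T' r'
  obtain ⟨H, hH, X0, hX0, ex, d0⟩ := hT f la b β q M Q C lab i i' o o' _ hy hM hQ li li' eo eo'
    (lz_LA Q.O (lift P G)) fun l a1 a2 => Lc.inv (Lc.of_mem (T.rg.st.z l)) (T.un_z a1 a2)
  obtain ⟨X1, hX1, d1⟩ := hG _ k C Q i i' P C2 x m G _ e _ H v Ψ p T (hQ.ad la) (by simp [li, eo])
    (by simp [li', eo']) r x2 hH (s.congr ex) g h1 h2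
  obtain ⟨X2, hX2, d2⟩ := hG _ k' C Q i' i P' C2' x' m' G' _ e' _ H v' Ψ' p' T' (hQ.ad la)
    (by simp [li', eo']) (by simp [li, eo]) r' x2'
    (by rwa [← T.la2 T', Finset.pair_comm]) (s'.congr ex) g' h1' h2'
  rw [← T.la2 T', Finset.pair_comm] at hX2
  rw [← T.la2 T'] at d2
  obtain ⟨H1, H2, a1, a2⟩ := T.rs2 hH
  have hz : ∀ n : ℤ, (n : KK 3) ∈ lift P G := fun n => intCast_mem _ n
  obtain ⟨Y, hY⟩ := T.core x1 x2 r r2 a1 a2
    (add_mem (add_mem (zsmul_mem hX1 n) (zsmul_mem hX2 n')) (zsmul_mem hX0 n'')) hu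
    (add_mem (mul_mem (hz n) (T.leA d1)) (mul_mem (hz n'') (T.leA d0)))
    (mul_mem (hz n') (T.leA d2)) (by
      have z1 := C.ne i
      have z2 := C.ne i'
      rw [hΘ, dlog3 H (mul_ne_zero (zpow_ne_zero _ z2) h2.1) (mul_ne_zero (zpow_ne_zero _ z1) h2'.1)
        (show ip 3 f ≠ 0 from fun e => hy.ne (Subtype.ext e))]
      simp only [map_add, map_zsmul, zsmul_eq_mul]
      generalize H (C.z i' ^ p * Ψ) / (C.z i' ^ p * Ψ) = A,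
        H (C.z i ^ p' * Ψ') / (C.z i ^ p' * Ψ') = B, H (ip 3 f) / ip 3 f = D
      field_simp
      ring)
  refine ⟨H2, Y, ⟨v - H1, Pl.Res.uniq T.rc T.dat.adp x1 r s ⟨_, ex, ?_⟩, ?_⟩, hY⟩
  · rwa [sub_sub_cancel]
  · rwa [sub_sub_cancel]

theorem thd_eq (hQ : Pt3 M f Q C lab) (li : lab i = some o) (li' : lab i' = some o') (hi : i' ≠ i)
    {l : Fin 3} (h1 : l ≠ i) (h2 : l ≠ i') :
    thd M o o' Q = (((lab l).elim 0 M.aa : ℤ) : ℂ) := by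
  classical
  have h3 : ∀ j, (j ≠ o ∧ j ≠ o' ∧ M.On Q j) ↔ lab l = some j := fun j => by
    rw [hQ.on]
    refine ⟨fun ⟨a1, a2, n, hn⟩ => ?_, fun h => ⟨fun e => h1 (hQ.inj _ _ _ h (e ▸ li)),
      fun e => h2 (hQ.inj _ _ _ h (e ▸ li')), l, h⟩⟩
    rcases (by decide : ∀ i i' l n : Fin 3, i' ≠ i → l ≠ i → l ≠ i' → n = i ∨ n = i' ∨ n = l)
      i i' l n hi h1 h2 with rfl | rfl | rfl
    · exact absurd (Option.some.inj (hn.symm.trans li)) a1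
    · exact absurd (Option.some.inj (hn.symm.trans li')) a2
    · exact hn
  rw [thd, Finset.filter_congr fun j _ => h3 j]
  rcases lab l with _ | j
  · simp
  · simp [Mod.aa, Finset.filter_eq]

/-- The order of the cross function at a point of the curve. -/
theorem coreB (hF : SFL) (hQ : Pt3 M f Q C lab) (li : lab i = some o) (li' : lab i' = some o')
    (T : Tw C Q i i' P C2 x m G) (T' : Tw C Q i' i P' C2' x' m' G') {Ψ Ψ' : KK 3} {p p' : ℤ}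
    (h2 : Un (lift P G) (Ψ / C.z i' ^ p)) (h1' : Ψ' / C.z i ^ p' ∈ LA Q.O (lift P' G'))
    (h2' : Un (lift P' G') (Ψ' / C.z i ^ p')) {Θ : KK 3}
    (hΘ : Θ = Ψ ^ (M.aa o' * p') * Ψ' ^ (M.aa o * p) * ip 3 f ^ (-(p * p'))) :
    Un (lift P G) Θ ∧ ∀ U U', Fl C2 x m G U → Fl C2' x' m' G' U' → (od P G U Θ : ℂ) =
      M.a o' * p' * (U.v (G.pl.π (P.π Ψ / C2.z m ^ p)) : ℂ) +
        M.a o * p * (U'.v (G'.pl.π (P'.π Ψ' / C2'.z m' ^ p')) : ℂ) - p * p' * thd M o o' Q := by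
  obtain ⟨l, a1, a2⟩ := ex_third i i'
  have z1 := zpow_ne_zero p' (C.ne i)
  have z2 := zpow_ne_zero p (C.ne i')
  have e1 := (mul_div_cancel₀ Ψ z2).symm
  have e2 := (mul_div_cancel₀ Ψ' z1).symm
  have e3 := (div_mul_cancel₀ (ip 3 f) (C.mon_ne fun i => (lab i).elim 0 M.aa)).symm
  have fm := hQ.fm
  generalize Ψ / C.z i' ^ p = a at *
  generalize Ψ' / C.z i ^ p' = a' at *
  generalize (ip 3 f / C.mon fun i => (lab i).elim 0 M.aa) = u at *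
  rw [T.mon a1 a2, li, li', mul_left_comm, Option.elim_some, Option.elim_some] at e3
  rw [e1, e2, e3, th_id _ _ _ (C.ne i) (C.ne i')] at hΘ
  have u1 := T'.unA T h1' h2'
  have u2 := (un_of_ev T.le fm).mul ((T.un_z a1 a2).zpow ((lab l).elim 0 M.aa))
  refine ⟨hΘ ▸ ((h2.zpow _).mul (u1.zpow _)).mul (u2.zpow _), fun U U' F F' => ?_⟩
  rw [hΘ, od_mul U ((h2.zpow _).mul (u1.zpow _)) (u2.zpow _), od_mul U (h2.zpow _) (u1.zpow _),
    od_zpow U h2, od_zpow U u1, od_zpow U u2, T.od_unit F a1 a2 fm, T'.od2 hF T F' F h1' h2',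
    thd_eq hQ li li' T.ne a1 a2, e1, e2, T.pi_z h2.2.1.1, T'.pi_z h2'.2.1.1,
    mul_div_cancel_left₀ _ (zpow_ne_zero _ (C2.ne m)),
    mul_div_cancel_left₀ _ (zpow_ne_zero _ (C2'.ne m')), od, od]
  simp only [Mod.aa]
  push_cast
  ring

end Pool.Agent.MP_ee8c61_ag.N3.BK
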